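import Mathlib
import Pool.Agent.X69.Domatic

/-! Palette monotonicity in the domatic number game, Alice moving first. -/

namespace Pool.Agent.Results.MP_e0e877_co.PaletteMonotoneA

open Pool.Agent.X69.Domatic

/-- For every finite graph `H`: if Alice wins the A-game with palette `[k + 1]` then she wins the
A-game with palette `[k]` (all `k ≥ 1`); and, if `H` has a vertex, there is `m ≥ 1` such that Alice
wins the A-game with palette `[k]` exactly when `k ≤ m`. -/
theorem result {V : Type} [Fintype V] (H : SimpleGraph V) :
    (∀ k : ℕ, 1 ≤ k → AGame H (k + 1) → AGame H k) ∧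
      (Nonempty V → ∃ m : ℕ, 1 ≤ m ∧ ∀ k : ℕ, 1 ≤ k → (AGame H k ↔ k ≤ m)) :=
  main H true

end Pool.Agent.Results.MP_e0e877_co.PaletteMonotoneA
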